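import Pool.Agent.W78.GS.Basic

/-!
Project GS (helper78): the parity of the number of prime factors in a set of primes.
-/

set_option autoImplicit false

namespace Pool.Agent.W78.GS

open Finset Filter

/-- `m` is squarefree and the number of primes of `S` dividing `m` is congruent to `r` modulo `2` -/
def Par (S : Set ℕ) (r : ℕ) (m : ℕ) : Prop :=
  Squarefree m ∧ Set.ncard {p : ℕ | p.Prime ∧ p ∣ m ∧ p ∈ S} % 2 = r

lemma gS_eq (S : Set ℕ) {m : ℕ} (hm : Squarefree m) :
    gS S m = (-1) ^ (Set.ncard {p : ℕ | p.Prime ∧ p ∣ m ∧ p ∈ S}) := by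
  classical
  unfold gS
  congr 1
  rw [List.countP_eq_length_filter]
  have h1 : {p : ℕ | p.Prime ∧ p ∣ m ∧ p ∈ S} =
      (((m.primeFactorsList.filter (fun p => decide (p ∈ S))).toFinset : Finset ℕ) : Set ℕ) := by
    ext p
    simp only [Set.mem_setOf_eq, List.coe_toFinset, List.mem_filter, decide_eq_true_eq,
      Nat.mem_primeFactorsList hm.ne_zero]
    tauto
  rw [h1, Set.ncard_coe_finset, List.toFinset_card_of_nodup]
  exact ((Nat.squarefree_iff_nodup_primeFactorsList hm.ne_zero).1 hm).filter _

lemma par_iff (S : Set ℕ) {r : ℕ} (hr : r < 2) (m : ℕ) :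
    Par S r m ↔ Squarefree m ∧ gS S m = (-1) ^ r := by
  unfold Par
  refine and_congr_right fun hm => ?_
  rw [gS_eq S hm]
  set k := Set.ncard {p : ℕ | p.Prime ∧ p ∣ m ∧ p ∈ S}
  have hk : (-1 : ℤ) ^ k = (-1) ^ (k % 2) := by
    rw [← Nat.div_add_mod k 2, pow_add, pow_mul]
    simp
  rw [hk]
  have h2 : k % 2 < 2 := Nat.mod_lt _ two_pos
  interval_cases r <;> interval_cases (k % 2) <;> simp

lemma gS_prime {S : Set ℕ} {p : ℕ} (hp : p.Prime) (h : p ∈ S) : gS S p = -1 := by
  classical
  unfold gS
  rw [Nat.primeFactorsList_prime hp]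
  simp [h]

lemma moebius_par {m : ℕ} {e : ℤ} (he : e = 1 ∨ e = -1) :
    ArithmeticFunction.moebius m = e ↔
      ∃ r, r < 2 ∧ e = (-1) ^ r ∧ Par Set.univ r m := by
  classical
  constructor
  · intro h
    have hsq : Squarefree m := by
      rw [← ArithmeticFunction.moebius_ne_zero_iff_squarefree, h]
      rcases he with rfl | rfl <;> norm_num
    rcases he with rfl | rfl
    · refine ⟨0, by norm_num, by norm_num, ?_⟩
      rw [par_iff _ (by norm_num)]
      refine ⟨hsq, ?_⟩
      have h2 := ArithmeticFunction.moebius_apply_of_squarefree hsq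
      rw [h] at h2
      rw [pow_zero, h2]
      unfold gS
      rw [ArithmeticFunction.cardFactors_apply]
      congr 1
      simp
    · refine ⟨1, by norm_num, by norm_num, ?_⟩
      rw [par_iff _ (by norm_num)]
      refine ⟨hsq, ?_⟩
      have h2 := ArithmeticFunction.moebius_apply_of_squarefree hsq
      rw [h] at h2
      rw [pow_one, h2]
      unfold gS
      rw [ArithmeticFunction.cardFactors_apply]
      congr 1
      simp
  · rintro ⟨r, hr, rfl, hp⟩
    rw [par_iff _ hr] at hp
    rw [ArithmeticFunction.moebius_apply_of_squarefree hp.1, ← hp.2]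
    unfold gS
    rw [ArithmeticFunction.cardFactors_apply]
    congr 1
    simp

end Pool.Agent.W78.GS
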