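import Pool.Agent.W78.GS.All
import Pool.Agent.W78.GS.Stat

/-!
Project GS (helper78): final statements for sets of primes.
-/

set_option autoImplicit false

namespace Pool.Agent.W78.GS

open Finset Filter
open Pool.Agent.W78.GT (Good)

variable {t c : ℤ}

lemma par_ne (S : Set ℕ) {r m : ℕ} (h : Par S r m) : m ≠ 0 := h.1.ne_zero

lemma sgn (r : ℕ) (hr : r < 2) : (-1 : ℤ) ^ r = 1 ∨ (-1 : ℤ) ^ r = -1 := by
  interval_cases r <;> simp

theorem par_good (hG : Good t c) (S : Set ℕ) (hval : Val (gS S) t c) (r : ℕ) (hr : r < 2) :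
    Con t c (Par S r) := by
  have h := sqf_con (pm_gS S) hG hval _ (sgn r hr)
  have e : (fun m => Squarefree m ∧ gS S m = (-1) ^ r) = Par S r := by
    funext m
    exact propext (par_iff S hr m).symm
  rwa [e] at h

theorem par_univ (hG : Good t c) (r : ℕ) (hr : r < 2) : Con t c (Par Set.univ r) :=
  par_good hG _ (val_univ hG.nsq) r hr

theorem par_bnd (hns : ¬ IsSquare (t ^ 2 - 4 * c)) (S : Set ℕ) (hval : Val (gS S) t c) : ∃ B : ℕ,
    ∀ r : ℕ, r < 2 → Con t c (fun m => ∃ a b : ℕ, 1 ≤ a ∧ a ≤ B ∧ m = a ^ 2 * b ∧ Par S r b) := by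
  obtain ⟨B, hB⟩ := bnd_con (pm_gS S) hns hval
  refine ⟨B, fun r hr => ?_⟩
  have h := hB _ (sgn r hr)
  have e : (fun m => ∃ a b : ℕ, 1 ≤ a ∧ a ≤ B ∧ m = a ^ 2 * b ∧ Squarefree b ∧
      gS S b = (-1) ^ r) = (fun m => ∃ a b : ℕ, 1 ≤ a ∧ a ≤ B ∧ m = a ^ 2 * b ∧ Par S r b) := by
    funext m
    simp only [par_iff S hr]
  rwa [e] at h

lemma val_prime {S : Set ℕ} {p : ℕ} (hp : p.Prime) (hS : p ∈ S) {x y : ℤ}
    (h : x ^ 2 + t * x * y + c * y ^ 2 = p) : Val (gS S) t c :=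
  ⟨x, y, p, hp.ne_zero, h, gS_prime hp hS⟩

lemma val_odd {S : Set ℕ} {m a b : ℕ} (ha : a ≠ 0) (hb : Par S 1 b) (hm : m = a ^ 2 * b) {n : ℤ}
    (h : n ^ 2 + t * n + c = m) : Val (gS S) t c := by
  rw [par_iff S (by norm_num)] at hb
  refine val_of_root (m := m) ?_ h ?_
  · rw [hm]; exact mul_ne_zero (pow_ne_zero 2 ha) hb.1.ne_zero
  · rw [hm, (pm_gS S).sq_mul ha hb.1.ne_zero, hb.2, pow_one]

lemma good_one : Good 0 1 where
  nsq := by
    rintro ⟨r, hr⟩
    nlinarith [sq_nonneg r]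
  good := by
    intro l hl hd n
    have h1 : (l : ℤ) ∣ 2 ^ 3 := by
      have : (2 * ((0 : ℤ) ^ 2 - 4 * 1)) = -(2 ^ 3) := by norm_num
      rw [this, dvd_neg] at hd
      exact hd
    have h2 : l ∣ 2 ^ 3 := by exact_mod_cast h1
    have h3 : l = 2 := (Nat.prime_dvd_prime_iff_eq hl Nat.prime_two).1 (hl.dvd_of_dvd_pow h2)
    subst h3
    unfold Pool.Agent.W78.GT.Qp
    intro h4
    have h5 : ((2 : ℕ) : ℤ) ^ 2 = 4 := by norm_num
    rw [h5] at h4
    rcases Int.even_or_odd n with ⟨k, hk⟩ | ⟨k, hk⟩ <;> rw [hk] at h4 <;> ring_nf at h4 <;> omega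

/-- `x^2-2` -/
lemma good_two : Good 0 (-2) where
  nsq := by
    rintro ⟨r, hr⟩
    norm_num at hr
    have h1 : r < 3 := by nlinarith
    have h2 : -3 < r := by nlinarith
    interval_cases r <;> omega
  good := by
    intro l hl hd n
    have h1 : (l : ℤ) ∣ 2 ^ 4 := by
      have : (2 * ((0 : ℤ) ^ 2 - 4 * (-2))) = (2 ^ 4) := by norm_num
      rw [this] at hd
      exact hd
    have h2 : l ∣ 2 ^ 4 := by exact_mod_cast h1
    have h3 : l = 2 := (Nat.prime_dvd_prime_iff_eq hl Nat.prime_two).1 (hl.dvd_of_dvd_pow h2)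
    subst h3
    unfold Pool.Agent.W78.GT.Qp
    intro h4
    have h5 : ((2 : ℕ) : ℤ) ^ 2 = 4 := by norm_num
    rw [h5] at h4
    rcases Int.even_or_odd n with ⟨k, hk⟩ | ⟨k, hk⟩ <;> rw [hk] at h4 <;> ring_nf at h4 <;> omega

/-- `x^2+3x+1` -/
lemma good_five : Good 3 1 where
  nsq := by
    rintro ⟨r, hr⟩
    norm_num at hr
    have h1 : r < 3 := by nlinarith
    have h2 : -3 < r := by nlinarith
    interval_cases r <;> omega
  good := by
    intro l hl hd n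
    have h1 : (l : ℤ) ∣ 2 * 5 := by
      have : (2 * ((3 : ℤ) ^ 2 - 4 * 1)) = 2 * 5 := by norm_num
      rw [this] at hd
      exact hd
    have h2 : l ∣ 2 * 5 := by exact_mod_cast h1
    unfold Pool.Agent.W78.GT.Qp
    rcases (Nat.Prime.dvd_mul hl).1 h2 with h | h
    · have h3 : l = 2 := (Nat.prime_dvd_prime_iff_eq hl Nat.prime_two).1 h
      subst h3
      intro h4
      have h5 : ((2 : ℕ) : ℤ) ^ 2 = 4 := by norm_num
      rw [h5] at h4
      rcases Int.even_or_odd n with ⟨k, hk⟩ | ⟨k, hk⟩ <;> rw [hk] at h4 <;> ring_nf at h4 <;> omega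
    · have h3 : l = 5 := (Nat.prime_dvd_prime_iff_eq hl Nat.prime_five).1 h
      subst h3
      intro h4
      have h5 : ((5 : ℕ) : ℤ) ^ 2 = 25 := by norm_num
      rw [h5] at h4
      have h6 : (25 : ℤ) ∣ (2 * n + 3) ^ 2 - 5 := by
        have : (2 * n + 3) ^ 2 - 5 = 4 * (n ^ 2 + 3 * n + 1) := by ring
        rw [this]
        exact Dvd.dvd.mul_left h4 4
      have h7 : (5 : ℤ) ∣ (2 * n + 3) ^ 2 := by
        have : (5 : ℤ) ∣ (2 * n + 3) ^ 2 - 5 := (by norm_num : (5 : ℤ) ∣ 25).trans h6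
        have h8 := dvd_add this (dvd_refl 5)
        simpa using h8
      have h8 : (5 : ℤ) ∣ 2 * n + 3 := Int.Prime.dvd_pow' Nat.prime_five h7
      obtain ⟨k, hk⟩ := h8
      rw [hk] at h6
      obtain ⟨j, hj⟩ := h6
      ring_nf at hj
      omega

/-- `x^2+x+A`, `4A-1` squarefree, `A` odd -/
lemma good_half {A : ℕ} (hodd : Odd A) (hsq : Squarefree (4 * A - 1)) : Good 1 A where
  nsq := by
    rintro ⟨r, hr⟩
    have hA : 1 ≤ A := hodd.pos
    have : (1 : ℤ) ≤ A := by exact_mod_cast hA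
    nlinarith [sq_nonneg r]
  good := by
    intro l hl hd n
    have hA : 1 ≤ A := hodd.pos
    unfold Pool.Agent.W78.GT.Qp
    have hcast : (2 * ((1 : ℤ) ^ 2 - 4 * A)) = -((2 * (4 * A - 1) : ℕ) : ℤ) := by
      push_cast [Nat.cast_sub (show 1 ≤ 4 * A by omega)]
      ring
    rw [hcast, dvd_neg, Int.natCast_dvd_natCast] at hd
    rcases (Nat.Prime.dvd_mul hl).1 hd with h | h
    · have h3 : l = 2 := (Nat.prime_dvd_prime_iff_eq hl Nat.prime_two).1 h
      subst h3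
      intro h4
      have h5 : (2 : ℤ) ∣ n ^ 2 + 1 * n + A := (by norm_num : (2 : ℤ) ∣ ((2 : ℕ) : ℤ) ^ 2).trans h4
      obtain ⟨j, hj⟩ := hodd
      have h6 : Even (n * (n + 1)) := Int.even_mul_succ_self n
      obtain ⟨i, hi⟩ := h6
      obtain ⟨q, hq⟩ := h5
      have hj' : (A : ℤ) = 2 * j + 1 := by exact_mod_cast hj
      have : n ^ 2 + 1 * n + A = n * (n + 1) + A := by ring
      omega
    · intro h4
      have hl2 : (l : ℤ) ∣ (2 * n + 1) ^ 2 := by
        have e : (2 * n + 1) ^ 2 = 4 * (n ^ 2 + 1 * n + A) - ((4 * A - 1 : ℕ) : ℤ) := by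
          push_cast [Nat.cast_sub (show 1 ≤ 4 * A by omega)]
          ring
        rw [e]
        refine dvd_sub (Dvd.dvd.mul_left ((dvd_pow_self _ two_ne_zero).trans h4) 4) ?_
        exact_mod_cast h
      have hl1 : (l : ℤ) ∣ 2 * n + 1 := Int.Prime.dvd_pow' hl hl2
      have h6 : ((l ^ 2 : ℕ) : ℤ) ∣ ((4 * A - 1 : ℕ) : ℤ) := by
        have e : ((4 * A - 1 : ℕ) : ℤ) = 4 * (n ^ 2 + 1 * n + A) - (2 * n + 1) ^ 2 := by
          push_cast [Nat.cast_sub (show 1 ≤ 4 * A by omega)]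
          ring
        rw [e]
        push_cast
        exact dvd_sub (Dvd.dvd.mul_left h4 4) (pow_dvd_pow_of_dvd hl1 2)
      have h7 : l ^ 2 ∣ 4 * A - 1 := Int.natCast_dvd_natCast.1 h6
      have h8 := hsq l (by rwa [← pow_two])
      exact hl.one_lt.ne' (Nat.isUnit_iff.1 h8)

end Pool.Agent.W78.GS
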