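import Pool.Agent.W78.GS.Defs

/-!
Project GS (helper78): basic facts.
-/

set_option autoImplicit false

namespace Pool.Agent.W78.GS

open Finset Filter
open Pool.Agent.W78.GA (Qd nm prim)

variable {g : ℕ → ℤ} {t c : ℤ}

lemma Pm.ne_zero (h : Pm g) (n : ℕ) : g n ≠ 0 := by
  rcases h.val n with h | h <;> rw [h] <;> norm_num

lemma Pm.mul_self (h : Pm g) (n : ℕ) : g n * g n = 1 := by
  rcases h.val n with h | h <;> rw [h] <;> norm_num

lemma Pm.one (h : Pm g) : g 1 = 1 := by
  have h1 := h.mul (m := 1) (n := 1) one_ne_zero one_ne_zero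
  rw [mul_one, h.mul_self] at h1
  exact h1

lemma Pm.abs_eq (h : Pm g) (n : ℕ) : |g n| = 1 := by
  rcases h.val n with h | h <;> rw [h] <;> norm_num

lemma Pm.norm_eq (h : Pm g) (n : ℕ) : ‖(g n : ℂ)‖ = 1 := by
  rcases h.val n with h | h <;> rw [h] <;> norm_num

lemma Pm.sq_mul (h : Pm g) {s m : ℕ} (hs : s ≠ 0) (hm : m ≠ 0) : g (s ^ 2 * m) = g m := by
  rw [pow_two, h.mul (mul_ne_zero hs hs) hm, h.mul hs hs, h.mul_self, one_mul]

/-- the function `g(N z)` -/
lemma Pm.nm_mul (h : Pm g) {z w : Qd t c} (hz : nm z ≠ 0) (hw : nm w ≠ 0) :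
    g (nm (z * w)) = g (nm z) * g (nm w) := by
  rw [GA.nm_mul, h.mul hz hw]

lemma Pm.eq_iff (h : Pm g) (m n : ℕ) : g m ≠ g n ↔ g m * g n = -1 := by
  rcases h.val m with h1 | h1 <;> rcases h.val n with h2 | h2 <;> rw [h1, h2] <;> norm_num

/-- the Liouville function -/
lemma pm_lam : Pm Pool.Agent.H376R2.MR.lam where
  mul := fun hm hn => GA.lam_mul hm hn
  val := GA.lam_eq

/-- the parity of the number of prime factors in `S`, with multiplicity -/
noncomputable def gS (S : Set ℕ) (n : ℕ) : ℤ :=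
  open scoped Classical in (-1) ^ (n.primeFactorsList.countP (fun p => decide (p ∈ S)))

lemma pm_gS (S : Set ℕ) : Pm (gS S) where
  mul := by
    classical
    intro m n hm hn
    unfold gS
    rw [(Nat.perm_primeFactorsList_mul hm hn).countP_eq, List.countP_append, pow_add]
  val := fun n => neg_one_pow_eq_or ℤ _

end Pool.Agent.W78.GS
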