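import Pool.Agent.W78.GS.Basic
import Pool.Agent.W78.GR.SC

/-!
Project GS (helper78): the Matomaki-Radziwill theorem for `g`, and a positive proportion of sign
changes of `g`, real quadratic orders.
-/

set_option autoImplicit false

namespace Pool.Agent.W78.GS.R

open Finset Filter
open Pool.Agent.H376R2.MR
open Pool.Agent.W78.GR
open Pool.Agent.W78.GA (w_nonneg' w_le_one' w_ne bg_nonneg bg_le mem_cellM)

variable {g : ℕ → ℤ} {t c : ℤ} {η : (Qd t c)ˣ}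

lemma mem_sedge (U : Un t c η) {X : ℝ} {e : Qd t c × Qd t c} :
    e ∈ sedge g η X ↔ (fd η e.1 ∧ (nm e.1 : ℝ) ≤ X ∧ tp e.2 ∧ (nm e.2 : ℝ) ≤ X ∧
      dt e.1 e.2 = 1) ∧ g (nm e.1) ≠ g (nm e.2) := by
  classical
  unfold sedge
  rw [mem_filter, U.mem_dedge]

theorem mr_of (hg : Pm g) (U : Un t c η) (hmach : GA.S_MACH) (hele : GR.S_ELE t c)
    (hdec : S_DEC g η) (hmom0 : S_MOM0 g η) (hmomp : S_MOMP g η) (hmom : S_MOM g η)
    (hsp : GR.S_SPARSE t c η) (hls : GR.S_LS t c η) (hcell : S_CELLE g η) (hlat : GR.S_LAT t c η) :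
    S_MR g η := by
  classical
  obtain ⟨Ap, Bp, M, E, ρ, ϖ, hE⟩ := hele
  refine hmach (PE g η M ϖ) (mE M) (GG g η) ?_
  refine
    { m_nonneg := ?_, P_le := ?_, rich := hE.rich, cell_avg := hcell Ap Bp M E ρ ϖ hE, dec := ?_,
      mom_zero := hmom0, momP := hmomp Ap Bp M E ρ ϖ hE, mom := hmom Ap Bp M E ρ ϖ hE,
      sparse := ?_ }
  · intro H v
    unfold mE
    exact sum_nonneg fun p _ => by positivity
  · intro H v k
    unfold PE mE
    rw [norm_neg]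
    refine (norm_sum_le _ _).trans (sum_le_sum fun m _ => ?_)
    rw [norm_div, Complex.norm_natCast, norm_mul, hg.norm_eq, one_mul, norm_ps]
  · obtain ⟨C₁, hC₁, h1⟩ := hdec Ap Bp M E ρ ϖ hE
    obtain ⟨C₂, hC₂, h2⟩ := hls
    obtain ⟨β, hβ, C₃, hC₃, Z₀, h3⟩ := hsp
    have he : 0 < Real.exp 2 := Real.exp_pos _
    refine ⟨C₂ * (1 + Real.exp 2) * C₁ + C₃ * C₁, by positivity, β, hβ, Z₀, ?_⟩
    intro H v₀ v₁ hH hHv hW Y hY
    obtain ⟨s, a, hs, hG, ha⟩ := h1 H v₀ v₁ hH hHv hW Y hY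
    have hY1 : 1 ≤ Y := by
      refine le_trans ?_ hY
      exact Real.one_le_exp (by positivity)
    have hY0 : 0 < Y := by linarith
    have hB : 0 ≤ 1 / (∑ v ∈ Ico v₀ v₁, mE M H v) + 1 / (H : ℝ) ^ 2 := by positivity
    refine ⟨fun k => DPG η s a k, hG, ?_, ?_⟩
    · intro K hK hKY
      have h4 := h2 (Real.exp 2 * Y) K s a (by
        have : 1 ≤ Real.exp 2 := Real.one_le_exp (by norm_num)
        nlinarith) hK hs
      have h5 : 0 ≤ ∑ z ∈ s, ‖a z‖ ^ 2 := sum_nonneg fun _ _ => by positivity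
      calc ∑ k ∈ FK K, ‖DPG η s a k‖ ^ 2
          ≤ C₂ * (K + Real.exp 2 * Y) * ∑ z ∈ s, ‖a z‖ ^ 2 := h4
        _ ≤ C₂ * (Y + Real.exp 2 * Y) * ∑ z ∈ s, ‖a z‖ ^ 2 := by gcongr
        _ = C₂ * (1 + Real.exp 2) * (Y * ∑ z ∈ s, ‖a z‖ ^ 2) := by ring
        _ ≤ C₂ * (1 + Real.exp 2) *
            (C₁ * (1 / (∑ v ∈ Ico v₀ v₁, mE M H v) + 1 / (H : ℝ) ^ 2)) := by
            gcongr
        _ ≤ _ := by
            have : 0 ≤ C₃ * C₁ * (1 / (∑ v ∈ Ico v₀ v₁, mE M H v) + 1 / (H : ℝ) ^ 2) := by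
              positivity
            linarith
    · intro hZ V hV hcard
      have h4 := h3 Y hZ V hV hcard s a (fun z hz => (mem_filter.1 (hs hz)).1)
      calc ∑ k ∈ V, ‖DPG η s a k‖ ^ 2
          ≤ C₃ * Y * ∑ z ∈ s, ‖a z‖ ^ 2 := h4
        _ = C₃ * (Y * ∑ z ∈ s, ‖a z‖ ^ 2) := by ring
        _ ≤ C₃ * (C₁ * (1 / (∑ v ∈ Ico v₀ v₁, mE M H v) + 1 / (H : ℝ) ^ 2)) := by gcongr
        _ ≤ _ := by
            have : 0 ≤ C₂ * (1 + Real.exp 2) * C₁ *
                (1 / (∑ v ∈ Ico v₀ v₁, mE M H v) + 1 / (H : ℝ) ^ 2) := by positivity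
            linarith
  · obtain ⟨β, hβ, C₃, hC₃, Z₀, h3⟩ := hsp
    obtain ⟨C₄, hC₄, h4⟩ := win_mass U hlat
    have he2 : 0 < Real.exp 2 := Real.exp_pos _
    refine ⟨C₃ * (Real.exp 2 * C₄), by positivity, β, hβ, max Z₀ (Real.exp 3), ?_⟩
    intro Z hZ V hV hcard
    have hZ0 : Z₀ ≤ Z := (le_max_left _ _).trans hZ
    have hZ3 : Real.exp 3 ≤ Z := (le_max_right _ _).trans hZ
    have hZpos : 0 < Z := (Real.exp_pos _).trans_le hZ3
    have he12 : Real.exp 1 ≤ Real.exp 2 := Real.exp_le_exp.2 (by norm_num)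
    set s := (pball η (Real.exp 1 * Z)).filter (fun z => bg Z z ≠ 0) with hs
    have hsw : s ⊆ win η Z := by
      intro z hz
      rw [hs, mem_filter, U.mem_pball] at hz
      have h5 := bg_ne U.disc hZpos hz.1.1.1 hz.2
      rw [U.mem_win]
      refine ⟨hz.1.1, le_trans ?_ h5.1, h5.2.trans ?_⟩
      · exact div_le_div_of_nonneg_left hZpos.le (Real.exp_pos _) he12
      · exact mul_le_mul_of_nonneg_right he12 hZpos.le
    have hGA : ∀ k : ℤ, GG g η Z k = DPG η s (fun z => (g (nm z) : ℂ) * (bg Z z : ℂ)) k := by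
      intro k
      unfold GG DPG
      symm
      refine Finset.sum_filter_of_ne fun z _ hne h0 => ?_
      apply hne
      simp [h0]
    have h5 := h3 Z hZ0 V hV hcard s (fun z => (g (nm z) : ℂ) * (bg Z z : ℂ)) (fun z hz => by
      have := hsw hz
      rw [U.mem_win] at this
      exact U.mem_ball.2 ⟨this.1, this.2.2⟩)
    have h6 : Z * ∑ z ∈ s, ‖(g (nm z) : ℂ) * (bg Z z : ℂ)‖ ^ 2 ≤ Real.exp 2 * C₄ := by
      rw [Finset.mul_sum]
      calc ∑ z ∈ s, Z * ‖(g (nm z) : ℂ) * (bg Z z : ℂ)‖ ^ 2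
          ≤ ∑ z ∈ s, Real.exp 2 * (1 / (nm z : ℝ)) := by
            refine sum_le_sum fun z hz => ?_
            have hzw := hsw hz
            rw [U.mem_win] at hzw
            have hn : (0 : ℝ) < nm z := nm_posR U.disc hzw.1.1
            have h7 : ‖(g (nm z) : ℂ) * (bg Z z : ℂ)‖ ≤ 1 / nm z := by
              rw [norm_mul, Complex.norm_intCast, Complex.norm_real, Real.norm_eq_abs,
                abs_of_nonneg (bg_nonneg _ _)]
              have h8 : |(g (nm z) : ℝ)| ≤ 1 := by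
                rcases hg.val (nm z) with h | h <;> rw [h] <;> norm_num
              calc |(g (nm z) : ℝ)| * bg Z z ≤ 1 * (1 / nm z) :=
                    mul_le_mul h8 (bg_le _ _) (bg_nonneg _ _) zero_le_one
                _ = 1 / nm z := one_mul _
            have h9 : Z ≤ Real.exp 2 * nm z := by
              have := hzw.2.1
              rw [div_le_iff₀ he2] at this
              linarith
            calc Z * ‖(g (nm z) : ℂ) * (bg Z z : ℂ)‖ ^ 2 ≤ (Real.exp 2 * nm z) * (1 / nm z) ^ 2 := by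
                  gcongr
              _ = Real.exp 2 * (1 / (nm z : ℝ)) := by field_simp
        _ = Real.exp 2 * ∑ z ∈ s, 1 / (nm z : ℝ) := by rw [Finset.mul_sum]
        _ ≤ Real.exp 2 * ∑ z ∈ win η Z, 1 / (nm z : ℝ) := by
            gcongr
        _ ≤ Real.exp 2 * C₄ := by
            gcongr
            exact h4 Z hZ3
    calc ∑ k ∈ V, ‖GG g η Z k‖ ^ 2
        = ∑ k ∈ V, ‖DPG η s (fun z => (g (nm z) : ℂ) * (bg Z z : ℂ)) k‖ ^ 2 := by
          refine sum_congr rfl fun k _ => by rw [hGA k]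
      _ ≤ C₃ * Z * ∑ z ∈ s, ‖(g (nm z) : ℂ) * (bg Z z : ℂ)‖ ^ 2 := h5
      _ = C₃ * (Z * ∑ z ∈ s, ‖(g (nm z) : ℂ) * (bg Z z : ℂ)‖ ^ 2) := by ring
      _ ≤ C₃ * (Real.exp 2 * C₄) := by gcongr


lemma rsum_eq (hg : Pm g) (U : Un t c η) (Y : ℝ) {u : Qd t c} (hu : tp u) (K : ℕ) :
    ∑ z ∈ pball η (Real.exp 1 * Y), ∑ z' ∈ pball η (Real.exp 1 * Y),
      bg Y z * bg Y z' * (1 - (g (nm z) : ℝ) * (g (nm (u * z')) : ℝ)) * Fj K (ang η z - ang η (u * z')) =
    ∑ k ∈ FK K, (1 - |(k : ℝ)| / K) * ((ps η k u).re *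
      (‖A1 η Y k‖ ^ 2 - (g (nm u) : ℝ) * ‖GG g η Y k‖ ^ 2)) := by
  set s := pball η (Real.exp 1 * Y) with hs
  have hs0 : ∀ z ∈ s, tp z := fun z hz => pball_tp U hz
  have h1 := dsum_eq U s hs0 (bg Y) (bg Y) hu K
  have h2 := dsum_eq U s hs0 (fun z => (g (nm z) : ℝ) * bg Y z) (fun z => (g (nm z) : ℝ) * bg Y z) hu K
  have h3 : ∑ z ∈ s, ∑ z' ∈ s,
      bg Y z * bg Y z' * (1 - (g (nm z) : ℝ) * (g (nm (u * z')) : ℝ)) * Fj K (ang η z - ang η (u * z')) =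
      ∑ z ∈ s, ∑ z' ∈ s, bg Y z * bg Y z' * Fj K (ang η z - ang η (u * z')) -
      (g (nm u) : ℝ) * ∑ z ∈ s, ∑ z' ∈ s, ((g (nm z) : ℝ) * bg Y z) * ((g (nm z') : ℝ) * bg Y z') *
        Fj K (ang η z - ang η (u * z')) := by
    rw [mul_sum, ← sum_sub_distrib]
    refine sum_congr rfl fun z hz => ?_
    rw [mul_sum, ← sum_sub_distrib]
    refine sum_congr rfl fun z' hz' => ?_
    rw [hg.nm_mul (nm_pos U.disc hu).ne' (nm_pos U.disc (hs0 z' hz')).ne']
    push_cast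
    ring
  rw [h3, h1, h2, mul_sum, ← sum_sub_distrib]
  refine sum_congr rfl fun k _ => ?_
  have h4 : ∀ D : ℂ, (D * (starRingEnd ℂ) D * (starRingEnd ℂ) (ps η k u)).re =
      (ps η k u).re * ‖D‖ ^ 2 := by
    intro D
    rw [Complex.mul_conj, Complex.normSq_eq_norm_sq, Complex.re_ofReal_mul, Complex.conj_re]
    ring
  have h5 : DPG η s (fun z => (((g (nm z) : ℝ) * bg Y z : ℝ) : ℂ)) k = GG g η Y k := by
    unfold GG
    congr 1
    funext z
    push_cast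
    rfl
  have h6 : DPG η s (fun z => (bg Y z : ℂ)) k = A1 η Y k := rfl
  rw [h4, h4, h5, h6]
  ring

lemma rsum_le (hg : Pm g) (U : Un t c η) {Y : ℝ} (hY : 0 < Y) (u : Qd t c) (K : ℕ) :
    ∑ z ∈ pball η (Real.exp 1 * Y), ∑ z' ∈ pball η (Real.exp 1 * Y),
      bg Y z * bg Y z' * (1 - (g (nm z) : ℝ) * (g (nm (u * z')) : ℝ)) * Fj K (ang η z - ang η (u * z')) ≤
    2 * (Real.exp 1 / Y) ^ 2 * (open scoped Classical in
    ∑ z ∈ pball η (Real.exp 1 * Y), ∑ z' ∈ pball η (Real.exp 1 * Y),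
      (if g (nm z) ≠ g (nm (u * z')) then Fj K (ang η z - ang η (u * z')) else 0)) := by
  classical
  rw [mul_sum]
  refine sum_le_sum fun z hz => ?_
  rw [mul_sum]
  refine sum_le_sum fun z' hz' => ?_
  have hF := Fj_nonneg K (ang η z - ang η (u * z'))
  have ha := bg_le' U.disc hY (pball_tp U hz)
  have hb := bg_le' U.disc hY (pball_tp U hz')
  have ha0 := bg_nonneg Y z
  have hb0 := bg_nonneg Y z'
  have hab : bg Y z * bg Y z' ≤ (Real.exp 1 / Y) ^ 2 := by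
    rw [pow_two]
    exact mul_le_mul ha hb hb0 (ha0.trans ha)
  have hab0 : 0 ≤ bg Y z * bg Y z' := mul_nonneg ha0 hb0
  have hgz : g (nm z) = 1 ∨ g (nm z) = -1 := hg.val _
  have hgu' : g (nm (u * z')) = 1 ∨ g (nm (u * z')) = -1 := hg.val _
  have hsame : g (nm z) = g (nm (u * z')) → bg Y z * bg Y z' * (1 - (g (nm z) : ℝ) * (g (nm (u * z')) : ℝ)) *
      Fj K (ang η z - ang η (u * z')) = 0 := by
    intro h
    rw [h]
    have : (g (nm (u * z')) : ℝ) * (g (nm (u * z')) : ℝ) = 1 := by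
      rcases hgu' with h | h <;> rw [h] <;> norm_num
    rw [this]; ring
  by_cases h : g (nm z) ≠ g (nm (u * z'))
  · rw [if_pos h]
    have : (g (nm z) : ℝ) * (g (nm (u * z')) : ℝ) = -1 := by
      rcases hgz with h1 | h1 <;> rcases hgu' with h2 | h2
      · exact absurd (h1.trans h2.symm) h
      · rw [h1, h2]; norm_num
      · rw [h1, h2]; norm_num
      · exact absurd (h1.trans h2.symm) h
    rw [this]
    have := mul_le_mul_of_nonneg_right hab hF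
    nlinarith
  · rw [if_neg h, hsame (not_not.1 h)]
    simp

lemma low_bound (hg : Pm g) (Y : ℝ) {u₀ : Qd t c} (hgu : g (nm u₀) = -1) {K : ℕ} (hKpos : (0 : ℝ) < K) :
    2 * ‖A1 η Y 0‖ ^ 2 ≤ ∑ k ∈ FK K, (1 - |(k : ℝ)| / K) * ((ps η k (1 : Qd t c)).re *
      (‖A1 η Y k‖ ^ 2 - (g (nm (1 : Qd t c)) : ℝ) * ‖GG g η Y k‖ ^ 2)) +
      ∑ k ∈ FK K, (1 - |(k : ℝ)| / K) * ((ps η k u₀).re *
      (‖A1 η Y k‖ ^ 2 - (g (nm u₀) : ℝ) * ‖GG g η Y k‖ ^ 2)) +
      2 * ∑ k ∈ (FK K).erase 0, ‖GG g η Y k‖ ^ 2 := by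
  have hKn : 1 ≤ K := by exact_mod_cast hKpos
  rw [← sum_add_distrib]
  have h0 : (0 : ℤ) ∈ FK K := by
    rw [FK, Finset.mem_Ioo]
    omega
  rw [← Finset.add_sum_erase _ _ h0, mul_sum, add_assoc, ← sum_add_distrib]
  have h1 : (1 - |((0 : ℤ) : ℝ)| / K) * ((ps η 0 (1 : Qd t c)).re *
    (‖A1 η Y 0‖ ^ 2 - (g (nm (1 : Qd t c)) : ℝ) * ‖GG g η Y 0‖ ^ 2)) +
    (1 - |((0 : ℤ) : ℝ)| / K) * ((ps η 0 u₀).re *
    (‖A1 η Y 0‖ ^ 2 - (g (nm u₀) : ℝ) * ‖GG g η Y 0‖ ^ 2)) = 2 * ‖A1 η Y 0‖ ^ 2 := by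
    rw [nm_one, hg.one, hgu, ps_zero, ps_zero]
    simp
    ring
  rw [h1]
  refine le_add_of_nonneg_right (sum_nonneg fun k hk => ?_)
  rw [mem_erase, FK, Finset.mem_Ioo] at hk
  have hw0 : 0 ≤ 1 - |(k : ℝ)| / K := by
    rw [sub_nonneg, div_le_one hKpos]
    rw [abs_le]
    constructor
    · have : ((-(K : ℤ) : ℤ) : ℝ) < (k : ℝ) := by exact_mod_cast hk.2.1
      push_cast at this
      linarith
    · have : (k : ℝ) < ((K : ℤ) : ℝ) := by exact_mod_cast hk.2.2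
      push_cast at this
      linarith
  have hw1 : 1 - |(k : ℝ)| / K ≤ 1 := by
    have : 0 ≤ |(k : ℝ)| / K := by positivity
    linarith
  have hps1 : ps η k (1 : Qd t c) = 1 := ps_one k
  have hc1 : (ps η k u₀).re ≤ 1 := by
    have := (Complex.abs_re_le_norm (ps η k u₀)).trans (norm_ps k _).le
    exact (abs_le.1 this).2
  have hc2 : -1 ≤ (ps η k u₀).re := by
    have := (Complex.abs_re_le_norm (ps η k u₀)).trans (norm_ps k _).le
    exact (abs_le.1 this).1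
  rw [nm_one, hg.one, hgu, hps1]
  push_cast
  rw [Complex.one_re]
  set γ := (ps η k u₀).re
  set W := 1 - |(k : ℝ)| / K
  have hA : 0 ≤ ‖A1 η Y k‖ ^ 2 := by positivity
  have hB : 0 ≤ ‖GG g η Y k‖ ^ 2 := by positivity
  have e : W * (1 * (‖A1 η Y k‖ ^ 2 - 1 * ‖GG g η Y k‖ ^ 2)) +
      W * (γ * (‖A1 η Y k‖ ^ 2 - -1 * ‖GG g η Y k‖ ^ 2)) + 2 * ‖GG g η Y k‖ ^ 2 =
      W * (1 + γ) * ‖A1 η Y k‖ ^ 2 + (W * (1 + γ) + 2 * (1 - W)) * ‖GG g η Y k‖ ^ 2 := by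
    ring
  rw [e]
  have : 0 ≤ W * (1 + γ) := mul_nonneg hw0 (by linarith)
  have : 0 ≤ W * (1 + γ) + 2 * (1 - W) := by linarith
  positivity

theorem sc_of (hg : Pm g) (Un1 : Un t c η) (hmr : S_MR g η) (hpair : S_PAIR g η)
    (hA0 : GR.S_A0 t c η) (hu0 : S_U0 g t c) : S_SC g η := by
  classical
  obtain ⟨u₀, hu₀, hlu⟩ := hu0
  have hgu : g (nm u₀) = -1 := hlu
  obtain ⟨C₁, hC₁, U₁, hU₁, hpair1⟩ := hpair 1 tp_one
  obtain ⟨C₂, hC₂, U₂, hU₂, hpair2⟩ := hpair u₀ hu₀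
  set U : ℝ := max U₁ U₂ with hU
  set C : ℝ := max C₁ C₂ with hCdef
  have hU1 : 1 ≤ U := hU₁.trans (le_max_left _ _)
  have hC : 0 < C := hC₁.trans_le (le_max_left _ _)
  obtain ⟨c₀, hc₀, YA, hA0⟩ := hA0
  obtain ⟨h, hh, YM, hmr⟩ := hmr (c₀ ^ 2 / 4) (by positivity)
  set T : ℝ := 16 * Real.exp 4 * C / c₀ ^ 2 + 1 with hT
  have hT1 : 1 ≤ T := by
    rw [hT]
    have : 0 ≤ 16 * Real.exp 4 * C / c₀ ^ 2 := by positivity
    linarith
  have he1 : (0 : ℝ) < Real.exp 1 := Real.exp_pos 1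
  have hhp : 0 < h := by linarith
  have hUp : 0 < U := by linarith
  refine ⟨c₀ ^ 2 / (32 * Real.exp 5 * C * h * T ^ 2 * U), by positivity,
    U * Real.exp 1 * (|YA| + |YM| + 4 * h * T + 2), fun X' hX' => ?_⟩
  set Y : ℝ := X' / (U * Real.exp 1) with hYdef
  have hYbig : |YA| + |YM| + 4 * h * T + 2 ≤ Y := by
    rw [hYdef, le_div_iff₀ (by positivity)]
    linarith
  have hYA : YA ≤ Y := by
    have := le_abs_self YA
    have := abs_nonneg YM
    nlinarith [mul_pos hhp (by linarith : 0 < T)]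
  have hYM : YM ≤ Y := by
    have := le_abs_self YM
    have := abs_nonneg YA
    nlinarith [mul_pos hhp (by linarith : 0 < T)]
  have hY4 : 4 * h * T ≤ Y := by
    have := abs_nonneg YM
    have := abs_nonneg YA
    linarith
  have hhT : 1 ≤ h * T := by nlinarith
  have hYpos : 0 < Y := by nlinarith
  set K : ℕ := ⌊Y / h⌋₊ with hK
  have hYh : 4 * T ≤ Y / h := by
    rw [le_div_iff₀ hhp]; linarith
  have hK1 : (K : ℝ) ≤ Y / h := Nat.floor_le (by positivity)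
  have hK2 : Y / h - 1 < K := Nat.sub_one_lt_floor _
  have hK3 : Y / (2 * h) ≤ K := by
    have : Y / (2 * h) = (Y / h) / 2 := by field_simp
    rw [this]
    linarith
  have hK4 : 2 * T ≤ K := by linarith
  have hKpos : (0 : ℝ) < K := by linarith
  have hKn : 1 ≤ K := by exact_mod_cast hKpos
  have hKY : (K : ℝ) ≤ Y := hK1.trans (div_le_self hYpos.le hh)
  set X : ℝ := Real.exp 1 * Y with hXdef
  have he : 1 ≤ Real.exp 1 := Real.one_le_exp (by norm_num)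
  have hYX : Y ≤ X := by rw [hXdef]; nlinarith
  have hX1 : 1 ≤ X := by nlinarith
  have h2X : U * X = X' := by
    rw [hXdef, hYdef]; field_simp
  -- the two inequalities
  have hmono : ∀ V : ℝ, V ≤ U → ((sedge g η (V * X)).card : ℝ) ≤ ((sedge g η X').card : ℝ) := by
    intro V hV
    have : sedge g η (V * X) ⊆ sedge g η X' := by
      intro e he
      rw [mem_sedge Un1] at he ⊢
      have h3 : V * X ≤ X' := by
        rw [← h2X]
        exact mul_le_mul_of_nonneg_right hV (by linarith)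
      exact ⟨⟨he.1.1, he.1.2.1.trans h3, he.1.2.2.1, he.1.2.2.2.1.trans h3, he.1.2.2.2.2⟩, he.2⟩
    exact_mod_cast card_le_card this
  have hR : ∀ u : Qd t c, (u = 1 ∨ u = u₀) →
      ∑ k ∈ FK K, (1 - |(k : ℝ)| / K) * ((ps η k u).re *
      (‖A1 η Y k‖ ^ 2 - (g (nm u) : ℝ) * ‖GG g η Y k‖ ^ 2)) ≤
      16 * Real.exp 4 * C * h * T ^ 2 * ((sedge g η X').card : ℝ) / Y + 4 * Real.exp 4 * C / T := by
    intro u hu
    have hu0 : tp u := by
      rcases hu with rfl | rfl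
      · exact tp_one
      · exact hu₀
    rw [← rsum_eq hg Un1 Y hu0 K]
    refine (rsum_le hg Un1 hYpos u K).trans ?_
    have hs : (0 : ℝ) ≤ ((sedge g η X').card : ℝ) := Nat.cast_nonneg _
    have hTp : 0 < T := by linarith
    have h1 : (open scoped Classical in
        ∑ z ∈ pball η X, ∑ z' ∈ pball η X,
        (if g (nm z) ≠ g (nm (u * z')) then Fj K (ang η z - ang η (u * z')) else 0)) ≤
        C * (K * (T * X / K + 1) ^ 2 * ((sedge g η X').card : ℝ) + X ^ 2 / T + X * K / T ^ 2) := by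
      rcases hu with rfl | rfl
      · refine (hpair1 X T K hX1 hT1 hKn hK4).trans ?_
        have h3 := hmono U₁ (le_max_left _ _)
        have h4 : C₁ ≤ C := le_max_left _ _
        have h5 : 0 ≤ ((sedge g η (U₁ * X)).card : ℝ) := Nat.cast_nonneg _
        have hXp : 0 < X := by linarith
        gcongr
      · refine (hpair2 X T K hX1 hT1 hKn hK4).trans ?_
        have h3 := hmono U₂ (le_max_right _ _)
        have h4 : C₂ ≤ C := le_max_right _ _
        have h5 : 0 ≤ ((sedge g η (U₂ * X)).card : ℝ) := Nat.cast_nonneg _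
        have hXp : 0 < X := by linarith
        gcongr
    have h2 : 0 ≤ 2 * (Real.exp 1 / Y) ^ 2 := by positivity
    refine (mul_le_mul_of_nonneg_left h1 h2).trans ?_
    exact final_bound hC hh hT1 hYpos hKpos hK3 hKY hs
  have hR1 := hR 1 (Or.inl rfl)
  have hR2 := hR u₀ (Or.inr rfl)
  have hG := hmr Y hYM
  rw [← hK] at hG
  have hlow := low_bound (η := η) hg Y hgu hKpos
  have hA1 : c₀ ^ 2 ≤ ‖A1 η Y 0‖ ^ 2 := by
    have h1 : A1 η Y 0 = ((∑ z ∈ pball η (Real.exp 1 * Y), bg Y z : ℝ) : ℂ) := by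
      unfold A1 DPG
      simp
    have h2 := hA0 Y hYA
    rw [h1, Complex.norm_real, Real.norm_of_nonneg (by linarith)]
    exact pow_le_pow_left₀ hc₀.le h2 2
  have hT2 : 4 * Real.exp 4 * C / T ≤ c₀ ^ 2 / 4 := by
    rw [div_le_div_iff₀ (by linarith) (by norm_num)]
    have : c₀ ^ 2 * T = 16 * Real.exp 4 * C + c₀ ^ 2 := by
      rw [hT]; field_simp
    nlinarith [sq_nonneg c₀]
  have hfin : c₀ ^ 2 ≤ 32 * Real.exp 4 * C * h * T ^ 2 * ((sedge g η X').card : ℝ) / Y := by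
    have h2 : 32 * Real.exp 4 * C * h * T ^ 2 * ((sedge g η X').card : ℝ) / Y =
      16 * Real.exp 4 * C * h * T ^ 2 * ((sedge g η X').card : ℝ) / Y +
      16 * Real.exp 4 * C * h * T ^ 2 * ((sedge g η X').card : ℝ) / Y := by ring
    rw [h2]
    linarith
  rw [le_div_iff₀ hYpos] at hfin
  have hXY : X' = U * Real.exp 1 * Y := by
    rw [hYdef]; field_simp
  have e5 : Real.exp 5 = Real.exp 4 * Real.exp 1 := by
    rw [← Real.exp_add]; norm_num
  generalize ((sedge g η X').card : ℝ) = S at hfin ⊢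
  rw [hXY, e5, div_mul_eq_mul_div, div_le_iff₀ (by positivity)]
  calc c₀ ^ 2 * (U * Real.exp 1 * Y) = U * Real.exp 1 * (c₀ ^ 2 * Y) := by ring
    _ ≤ U * Real.exp 1 * (32 * Real.exp 4 * C * h * T ^ 2 * S) :=
        mul_le_mul_of_nonneg_left hfin (by positivity)
    _ = S * (32 * (Real.exp 4 * Real.exp 1) * C * h * T ^ 2 * U) := by ring


end Pool.Agent.W78.GS.R
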