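import Pool.Agent.W78.GR.All
import Pool.Agent.W78.GS.A
import Pool.Agent.W78.GS.R
import Pool.Agent.W349.GS.Dec
import Pool.Agent.W762.GS.Momp
import Pool.Agent.W762.GS.MomF
import Pool.Agent.W168.GS.Celle
import Pool.Agent.W347.GS.Pair
import Pool.Agent.W125.GS.DecR
import Pool.Agent.W571.GS.Mom
import Pool.Agent.W571.GS.Celle
import Pool.Agent.W688.GS.Pair
import Pool.Agent.W688.GS.Bnd
import Pool.Agent.W500.GS.Rest
import Pool.Agent.W363.GS.TripInt
import Pool.Agent.W578.GT.Equt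
import Pool.Agent.W583.GT.Exc
import Pool.Agent.W583.GT.Sq
import Pool.Agent.W571.GT.Rep
import Pool.Agent.W571.GT.Loc
import Pool.Agent.W591.GT.Large
import Pool.Agent.W29.GT.Ve
import Pool.Agent.W29.GT.Typ
import Pool.Agent.W976.GT.Sift

/-!
Project GS (helper78): all parts together.
-/

set_option autoImplicit false

namespace Pool.Agent.W78.GS

open Finset Filter
open Pool.Agent.H376R2.MR
open Pool.Agent.W78.GA (Qd nm prim dt ip)
open Pool.Agent.W78.GT (Good NT tri Qp S_EQUT)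

variable {g : ℕ → ℤ} {t c : ℤ}

/-- the Matomaki-Radziwill theorem for `g` and the angles of an imaginary quadratic order -/
theorem mr_neg (hg : Pm g) (hD : t ^ 2 < 4 * c) : A.S_MR g t c := by
  have hang1 : GA.S_ANG1 t c := Pool.Agent.W327.GA.ang1 hD
  have hlat : GA.S_LAT t c := Pool.Agent.W45.GA.lat hD
  have hred : GA.S_RED t c := Pool.Agent.W322.GA.red hD
  have hlati : GA.S_LATI t c := Pool.Agent.W322.GA.lati_of hD hlat hred
  have hls : GA.S_LS t c := Pool.Agent.W327.GA.ls hD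
  have hang : GA.S_ANG t c := Pool.Agent.W397.GA.ang_of hang1 (Pool.Agent.W397.GA.ang2 hD)
  have hangi : GA.S_ANGI t c := Pool.Agent.W322.GA.angi_of hD hang hred
  have hmach : GA.S_MACH := Pool.Agent.W586.GA.mach_of Pool.Agent.W240.GA.leva
    Pool.Agent.W240.GA.levb Pool.Agent.W397.GA.s_cnt Pool.Agent.W586.GA.upart
  exact A.mr_of hg hD hmach (Pool.Agent.W573.GA.ele hD)
    (Pool.Agent.W349.GS.dec_of hg hD hlat hlati (Pool.Agent.W999.GA.tk_of hD hlat hlati))
    (Pool.Agent.W762.GS.mom0_of hg hD hls hlat) (Pool.Agent.W762.GS.momp_of hg hD hls)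
    (Pool.Agent.W762.GS.mom_of hg hD hls hlat hlati)
    (Pool.Agent.W191.GA.sparse_of hD hang hlat) hls
    (Pool.Agent.W168.GS.celle_of hg hD
      (Pool.Agent.W194.GA.sele_of hD hangi hlat (Pool.Agent.W109.GA.selb hD))) hlat

/-- a positive proportion of sign changes, imaginary quadratic orders -/
theorem sc_neg (hg : Pm g) (hD : t ^ 2 < 4 * c) (hu : A.S_U0 g t c) : A.S_SC g t c :=
  A.sc_of hg hD (mr_neg hg hD) (Pool.Agent.W347.GS.pair_of hg hD (Pool.Agent.W803.GA.sect hD)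
    (Pool.Agent.W45.GA.lat hD)) (Pool.Agent.W240.GA.A0.a0_of hD (Pool.Agent.W45.GA.lat hD)) hu

/-- the Matomaki-Radziwill theorem for `g` and the angles of a real quadratic order -/
theorem mr_pos (hg : Pm g) {η : (Qd t c)ˣ} (U : GR.Un t c η) : R.S_MR g η := by
  have hlat : GR.S_LAT t c η := Pool.Agent.W398.GR.lat U
  have hred : GR.S_RED t c := Pool.Agent.W880.GR.red U.disc U.nsq
  have hlati : GR.S_LATI t c η := Pool.Agent.W880.GR.lati_of U hlat hred
  have hls : GR.S_LS t c η := Pool.Agent.W586.GR.ls U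
  have hang1 : GR.S_ANG1 t c η := Pool.Agent.W134.GR.ang1 U
  have hang : GR.S_ANG t c η := Pool.Agent.W398.GR.ang_of hang1 (Pool.Agent.W398.GR.ang2 U)
  have hangi : GR.S_ANGI t c η := Pool.Agent.W880.GR.angi_of U hang hred
  have hmach : GA.S_MACH := Pool.Agent.W586.GA.mach_of Pool.Agent.W240.GA.leva
    Pool.Agent.W240.GA.levb Pool.Agent.W397.GA.s_cnt Pool.Agent.W586.GA.upart
  exact R.mr_of hg U hmach (Pool.Agent.W352.GR.ele U.disc U.nsq)
    (Pool.Agent.W125.GS.R.dec_of hg U hlat hlati (Pool.Agent.W248.GR.tk_of U hlat hlati))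
    (Pool.Agent.W571.GS.mom0_of hg U hls hlat) (Pool.Agent.W571.GS.momp_of hg U hls)
    (Pool.Agent.W571.GS.mom_of hg U hls hlat hlati)
    (Pool.Agent.W402.GR.sparse_of U hang hlat) hls
    (Pool.Agent.W571.GS.celle_of hg U
      (Pool.Agent.W402.GR.sele_of U hangi hlat (Pool.Agent.W586.GR.selb U.disc U.nsq))) hlat

/-- a positive proportion of sign changes, real quadratic orders -/
theorem sc_pos (hg : Pm g) {η : (Qd t c)ˣ} (U : GR.Un t c η) (hu : R.S_U0 g t c) : R.S_SC g η :=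
  R.sc_of hg U (mr_pos hg U) (Pool.Agent.W688.GS.pair_of hg U (Pool.Agent.W54.GR.sect U)
    (Pool.Agent.W398.GR.lat U)) (Pool.Agent.W412.GR.a0_of U (Pool.Agent.W398.GR.lat U)) hu

/-- `g` takes the value `-1` at some positive value of the norm form -/
def Val (g : ℕ → ℤ) (t c : ℤ) : Prop :=
  ∃ (x y : ℤ) (m : ℕ), m ≠ 0 ∧ x ^ 2 + t * x * y + c * y ^ 2 = m ∧ g m = -1

lemma val_of_root {n : ℤ} {m : ℕ} (hm : m ≠ 0) (h : n ^ 2 + t * n + c = m) (hg : g m = -1) :
    Val g t c := ⟨n, 1, m, hm, by rw [← h]; ring, hg⟩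

lemma nm_xy (x y : ℤ) {m : ℕ} (h : x ^ 2 + t * x * y + c * y ^ 2 = m) :
    nm (⟨x, y⟩ : Qd t c) = m := by
  unfold nm
  simp only
  rw [h, Int.natAbs_natCast]

/-- a positive proportion of the triples has both signs and no large square divisor -/
theorem bnd (hg : Pm g) (hns : ¬ IsSquare (t ^ 2 - 4 * c)) (hval : Val g t c) : S_BND g t c := by
  obtain ⟨x, y, m, hm, hn, hgm⟩ := hval
  have hu0 : (⟨x, y⟩ : Qd t c) ≠ 0 := by
    intro h0
    have h1 := congrArg QuadraticAlgebra.re h0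
    have h2 := congrArg QuadraticAlgebra.im h0
    simp only [QuadraticAlgebra.re_zero, QuadraticAlgebra.im_zero] at h1 h2
    rw [h1, h2] at hn
    apply hm
    have : ((m : ℕ) : ℤ) = 0 := by rw [← hn]; ring
    exact_mod_cast this
  rcases lt_trichotomy (t ^ 2) (4 * c) with h | h | h
  · refine Pool.Agent.W688.GS.bnd_neg hg h (sc_neg hg h ⟨⟨x, y⟩, hu0, ?_⟩) (GA.sqb h)
    rw [nm_xy x y hn]
    exact hgm
  · exact absurd ⟨0, by rw [h]; ring⟩ hns
  · obtain ⟨η, U⟩ := Pool.Agent.W376.GR.unit h hns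
    refine Pool.Agent.W688.GS.bnd_pos hg U (sc_pos hg U ?_) (GR.sqb U)
    have hN : GR.s1 (⟨x, y⟩ : Qd t c) * GR.s2 (⟨x, y⟩ : Qd t c) = m := by
      unfold GR.s1 GR.s2
      have h2 : Real.sqrt (t ^ 2 - 4 * c) ^ 2 = (t : ℝ) ^ 2 - 4 * c := by
        rw [Real.sq_sqrt]
        have : (4 * c : ℝ) < (t : ℝ) ^ 2 := by exact_mod_cast h
        linarith
      have h3 : (x : ℝ) ^ 2 + t * x * y + c * y ^ 2 = m := by exact_mod_cast hn
      simp only
      rw [← h3]
      linear_combination (-(y : ℝ) ^ 2 / 4) * h2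
    have hmpos : (0 : ℝ) < m := by exact_mod_cast Nat.pos_of_ne_zero hm
    by_cases hp : 0 < GR.s1 (⟨x, y⟩ : Qd t c)
    · refine ⟨⟨x, y⟩, ⟨hp, ?_⟩, by rw [nm_xy x y hn]; exact hgm⟩
      by_contra hcon
      have := mul_nonpos_of_nonneg_of_nonpos hp.le (not_lt.1 hcon)
      linarith
    · have hs1 : GR.s1 (-⟨x, y⟩ : Qd t c) = -GR.s1 (⟨x, y⟩ : Qd t c) := by
        unfold GR.s1
        simp only [QuadraticAlgebra.re_neg, QuadraticAlgebra.im_neg]
        push_cast
        ring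
      have hs2 : GR.s2 (-⟨x, y⟩ : Qd t c) = -GR.s2 (⟨x, y⟩ : Qd t c) := by
        unfold GR.s2
        simp only [QuadraticAlgebra.re_neg, QuadraticAlgebra.im_neg]
        push_cast
        ring
      have h1 : GR.s1 (⟨x, y⟩ : Qd t c) ≠ 0 := by
        intro h0
        rw [h0, zero_mul] at hN
        linarith
      have h1' : GR.s1 (⟨x, y⟩ : Qd t c) < 0 := lt_of_le_of_ne (not_lt.1 hp) h1
      refine ⟨-⟨x, y⟩, ⟨by rw [hs1]; linarith, ?_⟩, by rw [GA.nm_neg, nm_xy x y hn]; exact hgm⟩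
      rw [hs2]
      by_contra hcon
      have h4 : 0 ≤ GR.s2 (⟨x, y⟩ : Qd t c) := by linarith
      have := mul_nonpos_of_nonpos_of_nonneg h1'.le h4
      linarith

theorem con (hns : ¬ IsSquare (t ^ 2 - 4 * c)) : S_CON t c :=
  Pool.Agent.W363.GS.con_of hns
    (Pool.Agent.W29.GT.vet_of (Pool.Agent.W29.GT.root_of (Pool.Agent.W571.GT.rep hns)))
    (Pool.Agent.W29.GT.typt hns)

/-- the resolution -/
theorem rest (hg : Pm g) (hG : Good t c) : S_REST g t c := by
  have hns := hG.nsq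
  have hrep := Pool.Agent.W571.GT.rep hns
  have hequt : S_EQUT t c := Pool.Agent.W578.GT.equt_of hrep
  have hlarge := Pool.Agent.W591.GT.larget hns
  exact Pool.Agent.W500.GS.rest_of hg hG (Pool.Agent.W571.GT.loct t c)
    (Pool.Agent.W583.GT.exc2t_of hequt) hlarge (Pool.Agent.W976.GT.siftt_of hrep)
    (Pool.Agent.W583.GT.sqt_of hG hequt hlarge)
    (Pool.Agent.W29.GT.vet_of (Pool.Agent.W29.GT.root_of hrep))

/-- squarefree values, good discriminants -/
theorem sqf_con (hg : Pm g) (hG : Good t c) (hval : Val g t c) (s : ℤ)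
    (hs : s = 1 ∨ s = -1) : Con t c (fun m => Squarefree m ∧ g m = s) := by
  have hsqf := Pool.Agent.W500.GS.sqf_of hg hG.nsq (bnd hg hG.nsq hval) (rest hg hG) s hs
  refine con hG.nsq _ 1 ?_ hsqf
  rintro m ⟨hm, -⟩
  rw [one_mul, Nat.card_divisors hm.ne_zero]
  refine le_of_eq ?_
  rw [Finset.prod_congr rfl fun p hp => ?_, Finset.prod_const]
  rw [Nat.factorization_eq_one_of_squarefree hm (Nat.prime_of_mem_primeFactors hp)
    (Nat.dvd_of_mem_primeFactors hp)]

lemma Pos.mono {P Q : ℕ → Prop} (h : Pos t c P) (hPQ : ∀ m : ℕ, m ≠ 0 → P m → Q m) :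
    Pos t c Q := by
  classical
  obtain ⟨κ, hκ, X₀, h⟩ := h
  refine ⟨κ, hκ, X₀, fun X hX => (h X hX).trans ?_⟩
  refine Nat.cast_le.2 (card_le_card fun e he => ?_)
  replace he := Finset.mem_filter.1 he
  refine Finset.mem_filter.2 ⟨he.1, hPQ _ ?_ he.2⟩
  have := (Pool.Agent.W78.GT.mem_tri.1 he.1)
  unfold NT
  exact mul_ne_zero (by omega) (by omega)

lemma card_div_mul (m n : ℕ) : (m * n).divisors.card ≤ m.divisors.card * n.divisors.card := by
  rw [Nat.divisors_mul]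
  exact Finset.card_mul_le

/-- values with a bounded square factor, all discriminants -/
theorem bnd_con (hg : Pm g) (hns : ¬ IsSquare (t ^ 2 - 4 * c)) (hval : Val g t c) : ∃ S : ℕ,
    ∀ s : ℤ, s = 1 ∨ s = -1 →
    Con t c (fun m => ∃ a b : ℕ, 1 ≤ a ∧ a ≤ S ∧ m = a ^ 2 * b ∧ Squarefree b ∧ g b = s) := by
  classical
  obtain ⟨S, hS⟩ := bnd hg hns hval
  refine ⟨S, fun s hs => con hns _ (S ^ 2) ?_ ?_⟩
  · rintro m ⟨a, b, ha, haS, rfl, hb, -⟩
    have ha0 : a ≠ 0 := by omega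
    have hb0 : b ≠ 0 := hb.ne_zero
    calc (a ^ 2 * b).divisors.card ≤ (a ^ 2).divisors.card * b.divisors.card := by
          exact card_div_mul _ _
      _ ≤ S ^ 2 * 2 ^ (a ^ 2 * b).primeFactors.card := by
          refine Nat.mul_le_mul ?_ ?_
          · exact (Nat.card_divisors_le_self _).trans (Nat.pow_le_pow_left haS 2)
          · rw [Nat.card_divisors hb0]
            rw [Finset.prod_congr rfl fun p hp => by
              rw [Nat.factorization_eq_one_of_squarefree hb (Nat.prime_of_mem_primeFactors hp)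
                (Nat.dvd_of_mem_primeFactors hp)], Finset.prod_const]
            exact Nat.pow_le_pow_right two_pos (card_le_card
              (Nat.primeFactors_mono (Dvd.intro_left _ rfl) (mul_ne_zero (pow_ne_zero 2 ha0) hb0)))
  · refine (hS s hs).mono fun m hne hm => ?_
    obtain ⟨b, a, hab, hbsq⟩ := Nat.sq_mul_squarefree m
    have ha0 : a ≠ 0 := by
      rintro rfl
      apply hne
      rw [← hab]; ring
    have hb0 : b ≠ 0 := hbsq.ne_zero
    refine ⟨a, b, Nat.one_le_iff_ne_zero.2 ha0, hm.1 a ⟨b, hab.symm⟩, hab.symm, hbsq, ?_⟩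
    rw [← hm.2, ← hab, hg.sq_mul ha0 hb0]

/-! ### Statements for sets of primes -/

lemma gS_univ (n : ℕ) : gS Set.univ n = lam n := by
  classical
  unfold gS lam
  rw [ArithmeticFunction.cardFactors_apply]
  congr 1
  simp

lemma val_univ (hns : ¬ IsSquare (t ^ 2 - 4 * c)) : Val (gS Set.univ) t c := by
  rcases lt_trichotomy (t ^ 2) (4 * c) with h | h | h
  · obtain ⟨u, hu, hl⟩ := Pool.Agent.W240.GA.u0 h
    refine ⟨u.re, u.im, nm u, (GA.nm_pos h hu).ne', ?_, by rw [gS_univ]; exact hl⟩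
    rw [GA.nm_cast h]
  · exact absurd ⟨0, by rw [h]; ring⟩ hns
  · obtain ⟨u, hu, hl⟩ := Pool.Agent.W376.GR.u0 h hns
    refine ⟨u.re, u.im, nm u, (GR.nm_pos h hu).ne', ?_, by rw [gS_univ]; exact hl⟩
    rw [GR.nm_tp_int h hu]

end Pool.Agent.W78.GS
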