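import Pool.Agent.W78.GR.Basic
import Pool.Agent.W78.GT.Basic

/-!
Project GS (helper78): projects GA, GR and GT for an arbitrary completely multiplicative function
`g` with values `1` and `-1` in place of the Liouville function (for example `g(m) = (-1)^k`, `k`
the number of prime factors of `m` in a given set of primes). Definitions and statements.
-/

set_option autoImplicit false

namespace Pool.Agent.W78.GS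

open Finset Filter
open Pool.Agent.H376R2.MR (FK Fj)
open Pool.Agent.W78.GA (Qd nm prim bg dt ip lat NN cellM mE)

/-- values `1` and `-1`, completely multiplicative on the positive integers -/
structure Pm (g : ℕ → ℤ) : Prop where
  mul : ∀ {m n : ℕ}, m ≠ 0 → n ≠ 0 → g (m * n) = g m * g n
  val : ∀ n : ℕ, g n = 1 ∨ g n = -1

/-! ### Imaginary quadratic orders -/

namespace A

variable (g : ℕ → ℤ) (t c : ℤ)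

/-- `G_Y(k) = ∑_{z primitive} g(N z) w(log(N z/Y))/N z (z/|z|)^k` -/
noncomputable def GG (Y : ℝ) (k : ℤ) : ℂ :=
  GA.DPG (GA.pball t c (Real.exp 1 * Y)) (fun z => (g (nm z) : ℂ) * (bg Y z : ℂ)) k

variable {t c} in
/-- `- ∑_{m ∈ cell} g(m) (ϖ_m/|ϖ_m|)^k / m` for even `k` -/
noncomputable def PE (M : ℕ → Prop) (ϖ : ℕ → Qd t c) (H v : ℕ) (k : ℤ) : ℂ :=
  if Even k then -∑ m ∈ cellM M H v, (g m : ℂ) * GA.ps k (ϖ m) / (m : ℂ) else 0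

open scoped Classical in
/-- the Farey edges with a sign change of `g` of the norm -/
noncomputable def sedge (X : ℝ) : Finset (Qd t c × Qd t c) :=
  (GA.edge t c X).filter (fun e => g (nm e.1) ≠ g (nm e.2))

/-- DEC: the decomposition -/
def S_DEC : Prop := ∀ (Ap Bp M : ℕ → Prop) (E : ℕ) (ρ : ℕ → ℤ) (ϖ : ℕ → Qd t c),
  GA.Ele t c Ap Bp M E ρ ϖ → ∃ C : ℝ, 0 < C ∧ ∀ H v₀ v₁ : ℕ, 1 ≤ H → H ≤ v₀ →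
    1 ≤ ∑ v ∈ Ico v₀ v₁, mE M H v → ∀ Y : ℝ, Real.exp (4 * (v₁ : ℝ) / H) ≤ Y →
    ∃ (s : Finset (Qd t c)) (f : Qd t c → ℂ), (∀ z ∈ s, prim z ∧ (nm z : ℝ) ≤ Real.exp 2 * Y) ∧
      (∀ k : ℤ, Even k → GG g t c Y k = -(1 / ((∑ v ∈ Ico v₀ v₁, mE M H v : ℝ) : ℂ)) *
        ∑ v ∈ Ico v₀ v₁, PE g M ϖ H v k * GG g t c (Y * Real.exp (-((v : ℝ) / H))) k +
        GA.DPG s f k) ∧
      Y * ∑ z ∈ s, ‖f z‖ ^ 2 ≤ C * (1 / (∑ v ∈ Ico v₀ v₁, mE M H v) + 1 / (H : ℝ) ^ 2)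

/-- MOM0: the mean values of `G` -/
def S_MOM0 : Prop := ∃ C : ℝ, 0 < C ∧ ∀ (K : ℕ) (Z : ℝ), 3 ≤ Z → 1 ≤ K →
    ∑ k ∈ FK K, ‖GG g t c Z k‖ ^ 2 ≤ C * (1 + (K : ℝ) / Z)

/-- MOMP: the moments of `P` -/
def S_MOMP : Prop := ∀ (Ap Bp M : ℕ → Prop) (E : ℕ) (ρ : ℕ → ℤ) (ϖ : ℕ → Qd t c),
  GA.Ele t c Ap Bp M E ρ ϖ → ∃ C : ℝ, 1 ≤ C ∧ ∀ H r ℓ K : ℕ, 1 ≤ H → 1 ≤ K →
    (K : ℝ) ≤ Real.exp ((r : ℝ) * ℓ / H) →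
    ∑ k ∈ FK K, ‖PE g M ϖ H r k‖ ^ (2 * ℓ) ≤ C ^ (ℓ + 1) * (ℓ.factorial : ℝ) ^ 8

/-- MOM: mixed moments -/
def S_MOM : Prop := ∀ (Ap Bp M : ℕ → Prop) (E : ℕ) (ρ : ℕ → ℤ) (ϖ : ℕ → Qd t c),
  GA.Ele t c Ap Bp M E ρ ϖ → ∃ C : ℝ, 1 ≤ C ∧ ∀ (H r ℓ K : ℕ) (Z : ℝ), 1 ≤ H → 3 ≤ Z → 1 ≤ K →
    (K : ℝ) ≤ Z * Real.exp ((r : ℝ) * ℓ / H) →
    ∑ k ∈ FK K, ‖PE g M ϖ H r k ^ ℓ * GG g t c Z k‖ ^ 2 ≤ C ^ (ℓ + 1) * (ℓ.factorial : ℝ) ^ 8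

/-- CELLE -/
def S_CELLE : Prop := ∀ (Ap Bp M : ℕ → Prop) (E : ℕ) (ρ : ℕ → ℤ) (ϖ : ℕ → Qd t c),
  GA.Ele t c Ap Bp M E ρ ϖ → ∃ c' : ℝ, 0 < c' ∧ c' ≤ 1 ∧ ∃ Λ : ℕ, ∀ M' H : ℕ, 1 ≤ H →
    ∃ V₀ : ℕ, ∀ v₀ v₁ : ℕ, V₀ ≤ v₀ → Λ * v₀ ≤ v₁ → ∀ k : ℤ, k ≠ 0 →
    |(k : ℝ)| ≤ Real.exp (M' * (v₀ : ℝ) / H) →
    ∑ v ∈ Ico v₀ v₁, ‖PE g M ϖ H v k‖ ≤ (1 - c') * ∑ v ∈ Ico v₀ v₁, mE M H v

/-- MR: the Matomaki-Radziwill theorem for the angles in the order, for the function `g` -/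
def S_MR : Prop := ∀ η : ℝ, 0 < η → ∃ h : ℝ, 1 ≤ h ∧ ∃ Y₀ : ℝ, ∀ Y : ℝ, Y₀ ≤ Y →
  ∑ k ∈ (FK ⌊Y / h⌋₊).erase 0, ‖GG g t c Y k‖ ^ 2 ≤ η

/-- PAIR: pairs of close directions with different signs -/
def S_PAIR : Prop := ∀ U : ℝ, 1 ≤ U → ∃ C : ℝ, 0 < C ∧ ∀ (X T : ℝ) (K : ℕ)
  (u : Qd t c), 1 ≤ X → 1 ≤ T → 1 ≤ K → 2 * T ≤ K → 1 ≤ nm u → (nm u : ℝ) ≤ U →
  (open scoped Classical in
    ∑ z ∈ GA.pball t c X, ∑ z' ∈ GA.pball t c X,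
      (if g (nm z) ≠ g (nm (u * z')) then Fj K (GA.ang z - GA.ang (u * z')) else 0)) ≤
    C * (K * (T * X / K + 1) ^ 2 * ((sedge g t c (U * X)).card : ℝ) + X ^ 2 / T + X * K / T ^ 2)

/-- U0: `g` is not constant on the norms -/
def S_U0 : Prop := ∃ u : Qd t c, u ≠ 0 ∧ g (nm u) = -1

/-- SC: a positive proportion of sign changes -/
def S_SC : Prop := ∃ ε : ℝ, 0 < ε ∧ ∃ X₀ : ℝ, ∀ X : ℝ, X₀ ≤ X → ε * X ≤ ((sedge g t c X).card : ℝ)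

end A

/-! ### Real quadratic orders -/

namespace R

variable (g : ℕ → ℤ) {t c : ℤ} (η : (Qd t c)ˣ)

/-- `G_Y(k) = ∑_{z primitive} g(N z) w(log(N z/Y))/N z ps k z`, `z` in the fundamental domain -/
noncomputable def GG (Y : ℝ) (k : ℤ) : ℂ :=
  GR.DPG η (GR.pball η (Real.exp 1 * Y)) (fun z => (g (nm z) : ℂ) * (bg Y z : ℂ)) k

/-- `- ∑_{m ∈ cell} g(m) ps k (ϖ_m) / m` -/
noncomputable def PE (M : ℕ → Prop) (ϖ : ℕ → Qd t c) (H v : ℕ) (k : ℤ) : ℂ :=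
  -∑ m ∈ cellM M H v, (g m : ℂ) * GR.ps η k (ϖ m) / (m : ℂ)

open scoped Classical in
/-- the pairs with a sign change of `g` of the norm -/
noncomputable def sedge (X : ℝ) : Finset (Qd t c × Qd t c) :=
  (GR.dedge η X).filter (fun e => g (nm e.1) ≠ g (nm e.2))

/-- DEC: the decomposition -/
def S_DEC : Prop := ∀ (Ap Bp M : ℕ → Prop) (E : ℕ) (ρ : ℕ → ℤ) (ϖ : ℕ → Qd t c),
  GR.Ele t c Ap Bp M E ρ ϖ → ∃ C : ℝ, 0 < C ∧ ∀ H v₀ v₁ : ℕ, 1 ≤ H → H ≤ v₀ →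
    1 ≤ ∑ v ∈ Ico v₀ v₁, mE M H v → ∀ Y : ℝ, Real.exp (4 * (v₁ : ℝ) / H) ≤ Y →
    ∃ (s : Finset (Qd t c)) (f : Qd t c → ℂ), s ⊆ GR.pball η (Real.exp 2 * Y) ∧
      (∀ k : ℤ, GG g η Y k = -(1 / ((∑ v ∈ Ico v₀ v₁, mE M H v : ℝ) : ℂ)) *
        ∑ v ∈ Ico v₀ v₁, PE g η M ϖ H v k * GG g η (Y * Real.exp (-((v : ℝ) / H))) k +
        GR.DPG η s f k) ∧
      Y * ∑ z ∈ s, ‖f z‖ ^ 2 ≤ C * (1 / (∑ v ∈ Ico v₀ v₁, mE M H v) + 1 / (H : ℝ) ^ 2)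

/-- MOM0: the mean values of `G` -/
def S_MOM0 : Prop := ∃ C : ℝ, 0 < C ∧ ∀ (K : ℕ) (Z : ℝ), 3 ≤ Z →
    1 ≤ K → ∑ k ∈ FK K, ‖GG g η Z k‖ ^ 2 ≤ C * (1 + (K : ℝ) / Z)

/-- MOMP: the moments of `P` -/
def S_MOMP : Prop := ∀ (Ap Bp M : ℕ → Prop) (E : ℕ) (ρ : ℕ → ℤ) (ϖ : ℕ → Qd t c),
  GR.Ele t c Ap Bp M E ρ ϖ → ∃ C : ℝ, 1 ≤ C ∧ ∀ H r ℓ K : ℕ, 1 ≤ H → 1 ≤ K →
    (K : ℝ) ≤ Real.exp ((r : ℝ) * ℓ / H) →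
    ∑ k ∈ FK K, ‖PE g η M ϖ H r k‖ ^ (2 * ℓ) ≤ C ^ (ℓ + 1) * (ℓ.factorial : ℝ) ^ 8

/-- MOM: mixed moments -/
def S_MOM : Prop := ∀ (Ap Bp M : ℕ → Prop) (E : ℕ) (ρ : ℕ → ℤ) (ϖ : ℕ → Qd t c),
  GR.Ele t c Ap Bp M E ρ ϖ → ∃ C : ℝ, 1 ≤ C ∧ ∀ (H r ℓ K : ℕ) (Z : ℝ), 1 ≤ H → 3 ≤ Z → 1 ≤ K →
    (K : ℝ) ≤ Z * Real.exp ((r : ℝ) * ℓ / H) →
    ∑ k ∈ FK K, ‖PE g η M ϖ H r k ^ ℓ * GG g η Z k‖ ^ 2 ≤ C ^ (ℓ + 1) * (ℓ.factorial : ℝ) ^ 8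

/-- CELLE -/
def S_CELLE : Prop := ∀ (Ap Bp M : ℕ → Prop) (E : ℕ) (ρ : ℕ → ℤ) (ϖ : ℕ → Qd t c),
  GR.Ele t c Ap Bp M E ρ ϖ → ∃ c' : ℝ, 0 < c' ∧ c' ≤ 1 ∧ ∃ Λ : ℕ, ∀ M' H : ℕ, 1 ≤ H →
    ∃ V₀ : ℕ, ∀ v₀ v₁ : ℕ, V₀ ≤ v₀ → Λ * v₀ ≤ v₁ → ∀ k : ℤ, k ≠ 0 →
    |(k : ℝ)| ≤ Real.exp (M' * (v₀ : ℝ) / H) →
    ∑ v ∈ Ico v₀ v₁, ‖PE g η M ϖ H v k‖ ≤ (1 - c') * ∑ v ∈ Ico v₀ v₁, mE M H v

/-- MR: the Matomaki-Radziwill theorem for the angles in the order, for the function `g` -/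
def S_MR : Prop := ∀ δ : ℝ, 0 < δ → ∃ h : ℝ, 1 ≤ h ∧ ∃ Y₀ : ℝ,
  ∀ Y : ℝ, Y₀ ≤ Y → ∑ k ∈ (FK ⌊Y / h⌋₊).erase 0, ‖GG g η Y k‖ ^ 2 ≤ δ

/-- PAIR: pairs of close directions with different signs -/
def S_PAIR : Prop := ∀ u : Qd t c, GR.tp u → ∃ C : ℝ, 0 < C ∧ ∃ U : ℝ,
  1 ≤ U ∧ ∀ (X T : ℝ) (K : ℕ), 1 ≤ X → 1 ≤ T → 1 ≤ K → 2 * T ≤ K →
  (open scoped Classical in
    ∑ z ∈ GR.pball η X, ∑ z' ∈ GR.pball η X,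
      (if g (nm z) ≠ g (nm (u * z')) then Fj K (GR.ang η z - GR.ang η (u * z')) else 0)) ≤
    C * (K * (T * X / K + 1) ^ 2 * ((sedge g η (U * X)).card : ℝ) + X ^ 2 / T + X * K / T ^ 2)

variable (t c) in
/-- U0: `g` is not constant on the norms of totally positive elements -/
def S_U0 : Prop := ∃ u : Qd t c, GR.tp u ∧ g (nm u) = -1

/-- SC: a positive proportion of sign changes -/
def S_SC : Prop := ∃ ε : ℝ, 0 < ε ∧ ∃ X₀ : ℝ, ∀ X : ℝ, X₀ ≤ X →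
  ε * X ≤ ((sedge g η X).card : ℝ)

end R

/-! ### From sign changes to integers -/

open Pool.Agent.W78.GT (Tr NT tri exc Qp)

variable (g : ℕ → ℤ) (t c : ℤ)

/-- REST: the resolution. For most triples `e` there are two triples `F₁ e`, `F₂ e` with
`g(NT (F₁ e)) g(NT (F₂ e)) = g(NT e)` and smaller excess. -/
def S_REST : Prop := ∀ δ : ℝ, 0 < δ → ∃ (Q : ℝ) (D : ℕ) (X₀ : ℝ), 1 ≤ Q ∧ ∀ X : ℝ,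
  X₀ ≤ X → ∃ (E : Finset Tr) (F₁ F₂ : Tr → Tr), (E.card : ℝ) ≤ δ * X ∧
    (∀ e ∈ tri t c X X, e ∉ E → F₁ e ∈ tri t c (Q * X) (Q * X) ∧
      F₂ e ∈ tri t c (Q * X) (Q * X) ∧ g (NT (F₁ e)) * g (NT (F₂ e)) = g (NT e) ∧
      exc (NT (F₁ e)) ≤ exc (NT e) - 1 ∧ exc (NT (F₂ e)) ≤ exc (NT e) - 1) ∧
    (open scoped Classical in
      ∀ f : Tr, ((tri t c X X).filter (fun e => e ∉ E ∧ F₁ e = f)).card ≤ D ∧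
        ((tri t c X X).filter (fun e => e ∉ E ∧ F₂ e = f)).card ≤ D)

open scoped Classical in
/-- a positive proportion of the triples has a product in the set `P` -/
def Pos (P : ℕ → Prop) : Prop := ∃ κ : ℝ, 0 < κ ∧ ∃ X₀ : ℝ, ∀ X : ℝ, X₀ ≤ X →
  κ * X ≤ (((tri t c X X).filter (fun e => P (NT e))).card : ℝ)

/-- BND: a positive proportion of the triples has no large square divisor and sign `s` -/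
def S_BND : Prop := ∃ S : ℕ, ∀ s : ℤ, s = 1 ∨ s = -1 →
  Pos t c (fun m => (∀ q : ℕ, q ^ 2 ∣ m → q ≤ S) ∧ g m = s)

/-- the conclusion: many integers `n ≤ N` for which `n^2+tn+c` is in the set `P`, and a positive
proportion of the pairs -/
def Con (P : ℕ → Prop) : Prop :=
  (∀ ε : ℝ, 0 < ε → ∃ N₀ : ℕ, ∀ N : ℕ, N₀ ≤ N → (N : ℝ) / Real.log N ^ (2 * Real.log 2 + ε) ≤
    (Set.ncard {n : ℕ | 1 ≤ n ∧ n ≤ N ∧ ∃ m : ℕ, (n : ℤ) ^ 2 + t * n + c = m ∧ P m} : ℝ)) ∧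
  ∃ κ : ℝ, 0 < κ ∧ ∃ N₀ : ℕ, ∀ N : ℕ, N₀ ≤ N → κ * N ≤
    (Set.ncard {p : ℕ × ℕ | 1 ≤ p.1 ∧ p.1 ≤ N ∧ 1 ≤ p.2 ∧ p.2 ≤ N ∧
      (∃ n : ℤ, (p.1 : ℤ) * p.2 = n ^ 2 + t * n + c) ∧ P (p.1 * p.2)} : ℝ)

/-- CON: from triples to integers, for every set `P` of integers with few divisors -/
def S_CON : Prop := ∀ (P : ℕ → Prop) (B : ℕ),
  (∀ m : ℕ, P m → m.divisors.card ≤ B * 2 ^ m.primeFactors.card) → Pos t c P → Con t c P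

/-- SQF: a positive proportion of the triples is squarefree with sign `s` -/
def S_SQF : Prop := ∀ s : ℤ, s = 1 ∨ s = -1 → Pos t c (fun m => Squarefree m ∧ g m = s)

end Pool.Agent.W78.GS
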