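import Mathlib

/-!
Project GS (helper78): primes dividing a value of `k^2+3k+1` are of the form `x^2+3xy+y^2`.
-/

set_option autoImplicit false

namespace Pool.Agent.W78.GS

/-- Thue's lemma -/
lemma thue (p : ℕ) (hp : 2 ≤ p) (r : ℤ) : ∃ x y : ℤ, (x ≠ 0 ∨ y ≠ 0) ∧ x ^ 2 ≤ p ∧ y ^ 2 ≤ p ∧
    (p : ℤ) ∣ x - r * y := by
  set s := Nat.sqrt p with hs
  have h1 : p < (s + 1) ^ 2 := by
    have := Nat.lt_succ_sqrt p
    rw [← hs] at this
    rw [pow_two]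
    exact this
  have h2 : s ^ 2 ≤ p := by
    rw [pow_two]
    exact Nat.sqrt_le p
  let F : ℕ × ℕ → ℤ := fun q => ((q.1 : ℤ) - r * q.2) % p
  have hpz : (0 : ℤ) < p := by exact_mod_cast (by omega : 0 < p)
  have hcard : (Finset.Ico (0 : ℤ) p).card < ((Finset.range (s + 1)) ×ˢ (Finset.range (s + 1))).card := by
    rw [Finset.card_product, Finset.card_range, Int.card_Ico, sub_zero, Int.toNat_natCast,
      ← pow_two]
    exact h1
  obtain ⟨a, ha, b, hb, hab, hF⟩ := Finset.exists_ne_map_eq_of_card_lt_of_maps_to hcard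
    (f := F) (fun q _ => by
      rw [Finset.mem_coe, Finset.mem_Ico]
      exact ⟨Int.emod_nonneg _ hpz.ne', Int.emod_lt_of_pos _ hpz⟩)
  rw [Finset.mem_product, Finset.mem_range, Finset.mem_range] at ha hb
  refine ⟨(a.1 : ℤ) - b.1, (a.2 : ℤ) - b.2, ?_, ?_, ?_, ?_⟩
  · by_contra hcon
    push Not at hcon
    apply hab
    ext
    · have := hcon.1; omega
    · have := hcon.2; omega
  · have h3 : |(a.1 : ℤ) - b.1| ≤ s := by
      rw [abs_le]; constructor <;> omega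
    have h4 : ((a.1 : ℤ) - b.1) ^ 2 ≤ (s : ℤ) ^ 2 := sq_le_sq.2 (by
      rw [abs_of_nonneg (by positivity : (0 : ℤ) ≤ s)]; exact h3)
    exact h4.trans (by exact_mod_cast h2)
  · have h3 : |(a.2 : ℤ) - b.2| ≤ s := by
      rw [abs_le]; constructor <;> omega
    have h4 : ((a.2 : ℤ) - b.2) ^ 2 ≤ (s : ℤ) ^ 2 := sq_le_sq.2 (by
      rw [abs_of_nonneg (by positivity : (0 : ℤ) ≤ s)]; exact h3)
    exact h4.trans (by exact_mod_cast h2)
  · have h5 : (p : ℤ) ∣ ((a.1 : ℤ) - r * a.2) - ((b.1 : ℤ) - r * b.2) :=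
      Int.ModEq.dvd (show ((b.1 : ℤ) - r * b.2) % p = ((a.1 : ℤ) - r * a.2) % p from hF.symm)
    have e : (a.1 : ℤ) - b.1 - r * (a.2 - b.2) = ((a.1 : ℤ) - r * a.2) - ((b.1 : ℤ) - r * b.2) := by
      ring
    rw [e]
    exact h5

/-- the value `x^2+3xy+y^2 = k p`, `|k| ≤ 4`, may be improved to `p` -/
lemma five_form (p : ℕ) (hp : p.Prime) (k : ℤ) (hk : (p : ℤ) ∣ k ^ 2 + 3 * k + 1) :
    ∃ x y : ℤ, (p : ℤ) = x ^ 2 + 3 * (x * y) + y ^ 2 := by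
  have hp0 : (p : ℤ) ≠ 0 := by exact_mod_cast hp.ne_zero
  have hpz : (0 : ℤ) < p := by exact_mod_cast hp.pos
  have hp2 : p ≠ 2 := by
    rintro rfl
    obtain ⟨j, hj⟩ := hk
    rcases Int.even_or_odd k with ⟨i, hi⟩ | ⟨i, hi⟩ <;> rw [hi] at hj <;> ring_nf at hj <;>
      push_cast at hj <;> omega
  have hp3 : p ≠ 3 := by
    rintro rfl
    have h1 : (3 : ℤ) ∣ k ^ 2 + 1 := by
      have := dvd_sub hk (Dvd.intro k rfl : (3 : ℤ) ∣ 3 * k)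
      have e : k ^ 2 + 3 * k + 1 - 3 * k = k ^ 2 + 1 := by ring
      rwa [Nat.cast_ofNat, e] at this
    obtain ⟨j, hj⟩ := h1
    have h2 : k = 3 * (k / 3) + k % 3 := (Int.mul_ediv_add_emod k 3).symm
    have h3 : k % 3 = 0 ∨ k % 3 = 1 ∨ k % 3 = 2 := by omega
    rcases h3 with h | h | h <;> rw [h] at h2 <;> rw [h2] at hj <;> ring_nf at hj <;> omega
  obtain ⟨x, y, hne, hx, hy, hd⟩ := thue p hp.two_le k
  have hdv : (p : ℤ) ∣ x ^ 2 + 3 * (x * y) + y ^ 2 := by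
    have e : x ^ 2 + 3 * (x * y) + y ^ 2 = (x - k * y) * (x + k * y + 3 * y) +
        (k ^ 2 + 3 * k + 1) * y ^ 2 := by ring
    rw [e]
    exact dvd_add (Dvd.dvd.mul_right hd _) (Dvd.dvd.mul_right hk _)
  obtain ⟨m, hm⟩ := hdv
  -- the form does not vanish
  have hnz : ∀ a b : ℤ, (a ≠ 0 ∨ b ≠ 0) → a ^ 2 + 3 * (a * b) + b ^ 2 ≠ 0 := by
    intro a b hab h0
    have h1 : (2 * a + 3 * b) ^ 2 = 5 * b ^ 2 := by linear_combination 4 * h0
    by_cases hb : b = 0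
    · subst hb
      have : a = 0 := by nlinarith
      rcases hab with h | h <;> contradiction
    · have hb' : (b : ℚ) ≠ 0 := by exact_mod_cast hb
      have h2 : ((2 : ℚ) * a + 3 * b) ^ 2 = 5 * (b : ℚ) ^ 2 := by exact_mod_cast h1
      have h3 : IsSquare ((5 : ℕ) : ℚ) := by
        refine ⟨(2 * a + 3 * b) / b, ?_⟩
        rw [← pow_two, div_pow, h2, mul_div_assoc, div_self (pow_ne_zero 2 hb')]
        norm_num
      rw [Rat.isSquare_natCast_iff] at h3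
      obtain ⟨q, hq⟩ := h3
      have hq3 : q < 3 := by nlinarith
      interval_cases q <;> omega
  have hm0 : m ≠ 0 := by
    rintro rfl
    exact hnz x y hne (by rw [hm, mul_zero])
  have hxy : |x * y| ≤ p := by
    have h1 : 0 ≤ (|x| - |y|) ^ 2 := sq_nonneg _
    have h2 : |x * y| = |x| * |y| := abs_mul _ _
    have h3 : |x| ^ 2 = x ^ 2 := sq_abs _
    have h4 : |y| ^ 2 = y ^ 2 := sq_abs _
    nlinarith
  have hub : x ^ 2 + 3 * (x * y) + y ^ 2 ≤ 5 * p := by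
    have := (abs_le.1 hxy).2
    linarith
  have hlb : -(3 * p : ℤ) ≤ x ^ 2 + 3 * (x * y) + y ^ 2 := by
    have := (abs_le.1 hxy).1
    have h1 := sq_nonneg x
    have h2 := sq_nonneg y
    linarith
  have hm5 : m ≤ 5 := by nlinarith
  have hm3 : -3 ≤ m := by nlinarith
  -- 2 is inert
  have h2in : ∀ a b : ℤ, (2 : ℤ) ∣ a ^ 2 + 3 * (a * b) + b ^ 2 → (2 : ℤ) ∣ a ∧ (2 : ℤ) ∣ b := by
    intro a b h
    rcases Int.even_or_odd a with ⟨i, hi⟩ | ⟨i, hi⟩ <;>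
      rcases Int.even_or_odd b with ⟨j, hj⟩ | ⟨j, hj⟩
    · exact ⟨⟨i, by omega⟩, ⟨j, by omega⟩⟩
    all_goals
      exfalso
      obtain ⟨q, hq⟩ := h
      rw [hi, hj] at hq
      ring_nf at hq
      omega
  have h3in : ∀ a b : ℤ, (3 : ℤ) ∣ a ^ 2 + 3 * (a * b) + b ^ 2 → (3 : ℤ) ∣ a ∧ (3 : ℤ) ∣ b := by
    intro a b h
    have h1 : (3 : ℤ) ∣ a ^ 2 + b ^ 2 := by
      have := dvd_sub h (Dvd.intro (a * b) rfl : (3 : ℤ) ∣ 3 * (a * b))
      have e : a ^ 2 + 3 * (a * b) + b ^ 2 - 3 * (a * b) = a ^ 2 + b ^ 2 := by ring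
      rwa [e] at this
    obtain ⟨q, hq⟩ := h1
    have ha : a = 3 * (a / 3) + a % 3 := (Int.mul_ediv_add_emod a 3).symm
    have hb : b = 3 * (b / 3) + b % 3 := (Int.mul_ediv_add_emod b 3).symm
    have ha3 : a % 3 = 0 ∨ a % 3 = 1 ∨ a % 3 = 2 := by omega
    have hb3 : b % 3 = 0 ∨ b % 3 = 1 ∨ b % 3 = 2 := by omega
    have : a % 3 = 0 ∧ b % 3 = 0 := by
      rcases ha3 with h1 | h1 | h1 <;> rcases hb3 with h2 | h2 | h2 <;>
        rw [h1] at ha <;> rw [h2] at hb <;> rw [ha, hb] at hq <;> ring_nf at hq <;>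
        first | exact ⟨h1, h2⟩ | (exfalso; omega)
    exact ⟨Int.dvd_of_emod_eq_zero this.1, Int.dvd_of_emod_eq_zero this.2⟩
  -- norm -1 element
  have hneg : ∀ a b : ℤ, a ^ 2 + 3 * (a * b) + b ^ 2 = -p →
      ∃ x y : ℤ, (p : ℤ) = x ^ 2 + 3 * (x * y) + y ^ 2 := by
    intro a b h
    refine ⟨a + b, -(a + 2 * b), ?_⟩
    linear_combination h
  -- removing a factor 4
  have hfour : ∀ (a b s : ℤ), a ^ 2 + 3 * (a * b) + b ^ 2 = 4 * s →
      ∃ a' b' : ℤ, a' ^ 2 + 3 * (a' * b') + b' ^ 2 = s := by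
    intro a b s h
    obtain ⟨⟨i, hi⟩, ⟨j, hj⟩⟩ := h2in a b ⟨2 * s, by linarith⟩
    refine ⟨i, j, ?_⟩
    rw [hi, hj] at h
    linarith
  have hcase2 : ∀ s : ℤ, x ^ 2 + 3 * (x * y) + y ^ 2 = 2 * s → (2 : ℤ) ∣ s := by
    intro s h
    obtain ⟨⟨i, hi⟩, ⟨j, hj⟩⟩ := h2in x y ⟨s, h⟩
    rw [hi, hj] at h
    exact ⟨i ^ 2 + 3 * (i * j) + j ^ 2, by linarith⟩
  have hcase3 : ∀ s : ℤ, x ^ 2 + 3 * (x * y) + y ^ 2 = 3 * s → (3 : ℤ) ∣ s := by
    intro s h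
    obtain ⟨⟨i, hi⟩, ⟨j, hj⟩⟩ := h3in x y ⟨s, h⟩
    rw [hi, hj] at h
    exact ⟨i ^ 2 + 3 * (i * j) + j ^ 2, by linarith⟩
  have no2 : ¬ (2 : ℤ) ∣ p := by
    intro h
    have : 2 ∣ p := by exact_mod_cast h
    exact hp2 ((Nat.prime_dvd_prime_iff_eq Nat.prime_two hp).1 this).symm
  have no3 : ¬ (3 : ℤ) ∣ p := by
    intro h
    have : 3 ∣ p := by exact_mod_cast h
    exact hp3 ((Nat.prime_dvd_prime_iff_eq Nat.prime_three hp).1 this).symm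
  have hm' : m = -3 ∨ m = -2 ∨ m = -1 ∨ m = 1 ∨ m = 2 ∨ m = 3 ∨ m = 4 ∨ m = 5 := by omega
  rcases hm' with rfl | rfl | rfl | rfl | rfl | rfl | rfl | rfl
  · exact absurd ((dvd_neg (a := (3 : ℤ))).1 (hcase3 (-p) (by rw [hm]; ring))) no3
  · exact absurd ((dvd_neg (a := (2 : ℤ))).1 (hcase2 (-p) (by rw [hm]; ring))) no2
  · exact hneg x y (by rw [hm]; ring)
  · exact ⟨x, y, by rw [hm]; ring⟩
  · exact absurd (hcase2 p (by rw [hm]; ring)) no2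
  · exact absurd (hcase3 p (by rw [hm]; ring)) no3
  · obtain ⟨a, b, h⟩ := hfour x y p (by rw [hm]; ring)
    exact ⟨a, b, h.symm⟩
  · -- the value 5p: equality in all the estimates, or divide by the element of norm 5
    have h5 : (5 : ℤ) ∣ (2 * x + 3 * y) ^ 2 := by
      have e : (2 * x + 3 * y) ^ 2 = 4 * (x ^ 2 + 3 * (x * y) + y ^ 2) + 5 * y ^ 2 := by ring
      rw [e, hm]
      exact dvd_add (Dvd.intro_left (4 * (p : ℤ)) (by ring)) (Dvd.intro _ rfl)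
    have h6 : (5 : ℤ) ∣ 2 * x + 3 * y := Int.Prime.dvd_pow' Nat.prime_five h5
    obtain ⟨j, hj⟩ := h6
    -- x = y + 5 i, since 2 x + 3 y = 2 (x - y) + 5 y
    have h7 : (5 : ℤ) ∣ x - y := by omega
    obtain ⟨i, hi⟩ := h7
    have hx' : x = y + 5 * i := by linarith
    rw [hx'] at hm
    -- (y+5i)^2+3(y+5i)y+y^2 = 5 y^2 + 25 i y + 25 i^2 = 5 (y^2 + 5 i y + 5 i^2)
    have h8 : y ^ 2 + 5 * (i * y) + 5 * i ^ 2 = p := by linarith [hm, (by ring :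
      (y + 5 * i) ^ 2 + 3 * ((y + 5 * i) * y) + y ^ 2 = 5 * (y ^ 2 + 5 * (i * y) + 5 * i ^ 2))]
    -- y^2 + 5 i y + 5 i^2 = (y+i)^2 + 3 (y+i) i + i^2
    exact ⟨y + i, i, by rw [← h8]; ring⟩

end Pool.Agent.W78.GS
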